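import Pool.Agent.Lib.MP_688fd0_co.TF.H70.Flow

/-!
# Theorem F, (7.1) and (7.2): general forms
-/

set_option autoImplicit false
set_option linter.all false

namespace Pool.Agent.Lib.MP_688fd0_co.TF.H70

open Pool.Agent.Lib.MP_688fd0_co.TE
open Pool.Agent.Lib.MP_688fd0_co.TF

universe u v w

section

variable {G : Type u} [Group G] [Fintype G] [DecidableEq G]

/-- General form of (7.1). -/
theorem iso1' (hKER : KERF_S.{u}) (hCPL : CPLF_S.{u}) (hTELE : TELEF_S.{u})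
    (hPKS : PKSF_S.{u}) (hNUM : NUMF_S.{u}) (c : Ctx G) (x0 : G) (U S S' : G → Prop) (δ M1 : ℝ)
    (hU : c.Light 4 U δ) (hδ0 : 0 ≤ δ) (hδ : δ ≤ 1 / c.X ^ 3)
    (hcov : ∀ v, cell c x0 v → U v ∨ S v ∨ S' v) (hS : ∀ v, S v → cell c x0 v)
    (hS' : ∀ v, S' v → cell c x0 v) (hdis : ∀ v, S v → ¬ S' v)
    (hM0 : 0 < M1) (hMb : M1 ≤ c.b) (hSM : M1 ≤ ∑ v, ind (S v)) (hSM' : M1 ≤ ∑ v, ind (S' v)) :
    c.b * M1 / c.X ^ 2 ≤ ∑ x, ∑ y, ind (S x ∧ S' y ∧ x⁻¹ * y ∈ c.B) := by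
  obtain ⟨hX1, hX2⟩ := numX hNUM c
  have n8 : 0 < c.b := (hNUM G c).2.2.2.2.2.2.1
  have hUM := TE.H47.UM_DS c.B c.hB.ne
  have hXp : 0 < c.X := by linarith
  -- the density functions
  set φ : G → ℝ := fun v => ∑ y, UM c.B v y * ind (S y) with hφ
  set φ' : G → ℝ := fun v => ∑ y, UM c.B v y * ind (S' y) with hφ'
  have hsum : ∀ v, cell c x0 v → 1 - δ ≤ φ v + φ' v := by
    intro v hv
    have h1 : ∑ y, ind (U y) * UM c.B v y ≤ δ :=
      hU _ ((hPKS G c).2.2.2.2.2.2.2.1 _ 4 _ (by norm_num)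
        (hPKS G c).2.2.2.2.2.2.2.2.1) v
    have h2 : (1 : ℝ) = ∑ y, UM c.B v y := (hUM.row v).symm
    have h3 : ∑ y, UM c.B v y ≤ φ v + φ' v + ∑ y, ind (U y) * UM c.B v y := by
      rw [hφ, hφ']
      simp only
      rw [← Finset.sum_add_distrib, ← Finset.sum_add_distrib]
      refine Finset.sum_le_sum fun y _ => ?_
      by_cases hy : UM c.B v y = 0
      · rw [hy]; simp
      have hc := cell_step c x0 hv (TE.H19.UM_ne hy)
      have h4 := hUM.nn v y
      rcases hcov y hc with h | h | h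
      · rw [ind_of h]
        nlinarith [ind_nonneg (S y), ind_nonneg (S' y)]
      · rw [ind_of h]
        nlinarith [ind_nonneg (U y), ind_nonneg (S' y)]
      · rw [ind_of h]
        nlinarith [ind_nonneg (S y), ind_nonneg (U y)]
    linarith
  have hbS : ∀ x y, ind (x⁻¹ * y ∈ c.B) = c.b * UM c.B x y := by
    intro x y
    unfold UM Ctx.b
    field_simp
    rw [mul_div_assoc, div_self (by
      have : (0 : ℝ) < c.B.card := n8
      exact ne_of_gt this), mul_one]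
  have hN1 : ∑ x, ∑ y, ind (S x ∧ S' y ∧ x⁻¹ * y ∈ c.B) = ∑ x, ind (S x) * (c.b * φ' x) := by
    refine Finset.sum_congr rfl fun x _ => ?_
    rw [hφ']
    simp only
    rw [Finset.mul_sum, Finset.mul_sum]
    refine Finset.sum_congr rfl fun y _ => ?_
    rw [ind_and, ind_and, hbS]
    ring
  have hN2 : ∑ x, ∑ y, ind (S x ∧ S' y ∧ x⁻¹ * y ∈ c.B) = ∑ y, ind (S' y) * (c.b * φ y) := by
    rw [Finset.sum_comm]
    refine Finset.sum_congr rfl fun y _ => ?_
    rw [hφ]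
    simp only
    rw [Finset.mul_sum, Finset.mul_sum]
    refine Finset.sum_congr rfl fun x _ => ?_
    rw [ind_and, ind_and, hbS, UM_symm' c.hB x y]
    ring
  have hη : 0 < 1 / c.X ^ 2 := by positivity
  have hηs : 1 / c.X ^ 2 ≤ 1 / 16 := by
    rw [div_le_div_iff₀ (by positivity) (by norm_num)]
    nlinarith
  have hδs : δ ≤ 1 / 16 := by
    refine le_trans hδ ?_
    rw [div_le_div_iff₀ (by positivity) (by norm_num)]
    have : c.X ≤ c.X ^ 3 := le_self_pow₀ (by linarith) (by norm_num)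
    linarith
  have hφ0 : ∀ v, 0 ≤ φ v := fun v => Finset.sum_nonneg fun y _ =>
    mul_nonneg (hUM.nn _ _) (ind_nonneg _)
  have hφ0' : ∀ v, 0 ≤ φ' v := fun v => Finset.sum_nonneg fun y _ =>
    mul_nonneg (hUM.nn _ _) (ind_nonneg _)
  by_cases hc1 : ∀ x, S x → 1 / c.X ^ 2 ≤ φ' x
  · rw [hN1]
    calc c.b * M1 / c.X ^ 2 = M1 * (c.b * (1 / c.X ^ 2)) := by ring
      _ ≤ (∑ v, ind (S v)) * (c.b * (1 / c.X ^ 2)) :=
        mul_le_mul_of_nonneg_right hSM (by positivity)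
      _ ≤ _ := by
        rw [Finset.sum_mul]
        refine Finset.sum_le_sum fun x _ => ?_
        by_cases hx : S x
        · rw [ind_of hx]
          have := hc1 x hx
          nlinarith
        · rw [ind_not hx]; simp
  by_cases hc2 : ∀ x, S' x → 1 / c.X ^ 2 ≤ φ x
  · rw [hN2]
    calc c.b * M1 / c.X ^ 2 = M1 * (c.b * (1 / c.X ^ 2)) := by ring
      _ ≤ (∑ v, ind (S' v)) * (c.b * (1 / c.X ^ 2)) :=
        mul_le_mul_of_nonneg_right hSM' (by positivity)
      _ ≤ _ := by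
        rw [Finset.sum_mul]
        refine Finset.sum_le_sum fun x _ => ?_
        by_cases hx : S' x
        · rw [ind_of hx]
          have := hc2 x hx
          nlinarith
        · rw [ind_not hx]; simp
  push Not at hc1 hc2
  obtain ⟨x, hSx, hx⟩ := hc1
  obtain ⟨y, hSy, hy⟩ := hc2
  have hxc := hS x hSx
  have hyc := hS' y hSy
  obtain ⟨v, v', hv, hv', hvv, hPv, hPv'⟩ := cell_conn c x0 (fun v => 1 / 2 ≤ φ v) x y hxc hyc
    (by
      have := hsum x hxc
      show 1 / 2 ≤ φ x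
      linarith)
    (by
      show ¬ 1 / 2 ≤ φ y
      linarith)
  have hφv' : 1 / 4 ≤ φ' v' := by
    have := hsum v' hv'
    linarith
  have hccb : ∀ j x y, c.cc false j x y ≤ 1 / c.b := by
    intro j x y
    have h1 : c.cc false j = UM c.B := by
      unfold Ctx.cc cF WM
      simp
    rw [h1]
    exact TE.H47.UM_le c.B x y
  obtain ⟨R, hR0, hR1, hR2⟩ := flow hKER hCPL hTELE hPKS hNUM c false v v' (TE.H19.B_sub_Lt hvv) U δ hU hδ0
    (fun x y => ind (S x ∧ S' y ∧ x⁻¹ * y ∈ c.B)) (fun x y => ind_nonneg _) (1 / c.b)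
    (by positivity) (fun j x y => mul_le_mul_of_nonneg_right (hccb j x y) (ind_nonneg _))
    (fun x => ind (S x)) (by
      intro x y hxy
      have hxy' : x⁻¹ * y ∈ c.B := by simpa [Lt] using hxy
      by_cases h1 : S x
      · by_cases h2 : S y
        · rw [ind_of h1, ind_of h2]
          have := ind_nonneg (S x ∧ S' y ∧ x⁻¹ * y ∈ c.B)
          linarith [ind_nonneg (U x), ind_nonneg (U y)]
        · rcases hcov y (cell_step c x0 (hS x h1) hxy') with h | h | h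
          · rw [ind_of h1, ind_not h2, ind_of h]
            have := ind_nonneg (S x ∧ S' y ∧ x⁻¹ * y ∈ c.B)
            linarith [ind_nonneg (U x)]
          · exact absurd h h2
          · rw [ind_of h1, ind_not h2, ind_of (show S x ∧ S' y ∧ x⁻¹ * y ∈ c.B from ⟨h1, h, hxy'⟩)]
            linarith [ind_nonneg (U x), ind_nonneg (U y)]
      · rw [ind_not h1]
        have := ind_nonneg (S x ∧ S' y ∧ x⁻¹ * y ∈ c.B)
        linarith [ind_nonneg (U x), ind_nonneg (U y), ind_nonneg (S y)])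
  set N := ∑ x, ∑ y, ind (S x ∧ S' y ∧ x⁻¹ * y ∈ c.B) with hN
  have hlow : φ v * φ' v' ≤ ∑ z, ∑ z', UM c.B v z * UM c.B v' z' * R z z' := by
    rw [hφ, hφ']
    simp only
    rw [Finset.sum_mul_sum]
    refine Finset.sum_le_sum fun z _ => Finset.sum_le_sum fun z' _ => ?_
    by_cases h1 : S z ∧ S' z'
    · by_cases h2 : UM c.B v z = 0
      · rw [h2]; simp
      by_cases h3 : UM c.B v' z' = 0
      · rw [h3]; simp
      have h4 := hR1 z z' h2 h3
      rw [ind_of h1.1, ind_not (fun h => hdis z' h h1.2)] at h4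
      rw [ind_of h1.1, ind_of h1.2, mul_one, mul_one]
      have h5 : 0 ≤ UM c.B v z * UM c.B v' z' := mul_nonneg (hUM.nn _ _) (hUM.nn _ _)
      nlinarith
    · have h2 : UM c.B v z * ind (S z) * (UM c.B v' z' * ind (S' z')) = 0 := by
        have : ind (S z) * ind (S' z') = 0 := by rw [← ind_and, ind_not h1]
        calc _ = UM c.B v z * UM c.B v' z' * (ind (S z) * ind (S' z')) := by ring
          _ = 0 := by rw [this, mul_zero]
      rw [h2]
      exact hR0 z z'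
  have h8 : 1 / 8 ≤ φ v * φ' v' := by nlinarith
  have hNn : 0 ≤ N := Finset.sum_nonneg fun x _ => Finset.sum_nonneg fun y _ => ind_nonneg _
  have h9 : (1 : ℝ) / 8 ≤ (6 * c.k + 3) * (2 * c.X * (1 / c.b / c.b * N + 2 * δ)) :=
    le_trans h8 (le_trans hlow hR2)
  have hδX : c.X * δ ≤ 1 / c.X ^ 2 := by
    calc c.X * δ ≤ c.X * (1 / c.X ^ 3) := mul_le_mul_of_nonneg_left hδ hXp.le
      _ = 1 / c.X ^ 2 := by field_simp
  have hk0 : (0 : ℝ) < 6 * c.k + 3 := by positivity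
  have h10 : (6 * c.k + 3) * (2 * c.X * (2 * δ)) ≤ 1 / 16 := by
    have : (6 * (c.k : ℝ) + 3) * (c.X * δ) ≤ c.X / 32 * (1 / c.X ^ 2) :=
      mul_le_mul (by linarith) hδX (by positivity) (by positivity)
    have h11 : c.X / 32 * (1 / c.X ^ 2) = 1 / (32 * c.X) := by field_simp
    have h12 : 1 / (32 * c.X) ≤ 1 / 64 := by
      rw [div_le_div_iff₀ (by positivity) (by norm_num)]
      linarith
    nlinarith
  have h13 : (1 : ℝ) / 16 ≤ (6 * c.k + 3) * (2 * c.X * (1 / c.b / c.b * N)) := by nlinarith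
  have h14 : (6 * c.k + 3) * (2 * c.X * (1 / c.b / c.b * N)) ≤ c.X ^ 2 / 16 * (N / c.b ^ 2) := by
    have : (1 / c.b / c.b * N) = N / c.b ^ 2 := by field_simp
    rw [this]
    have h15 : 0 ≤ N / c.b ^ 2 := by positivity
    have h18 : (6 * (c.k : ℝ) + 3) * (2 * c.X) ≤ c.X ^ 2 / 16 := by nlinarith
    calc (6 * (c.k : ℝ) + 3) * (2 * c.X * (N / c.b ^ 2)) =
        (6 * (c.k : ℝ) + 3) * (2 * c.X) * (N / c.b ^ 2) := by ring
      _ ≤ _ := mul_le_mul_of_nonneg_right h18 h15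
  have h16 : 1 ≤ c.X ^ 2 * (N / c.b ^ 2) := by linarith
  have h17 : c.b ^ 2 ≤ c.X ^ 2 * N := by
    have : c.X ^ 2 * (N / c.b ^ 2) = c.X ^ 2 * N / c.b ^ 2 := by ring
    rw [this, le_div_iff₀ (by positivity)] at h16
    linarith
  rw [div_le_iff₀ (by positivity)]
  nlinarith

/-- General form of (7.2). -/
theorem iso2' (hKER : KERF_S.{u}) (hCPL : CPLF_S.{u}) (hTELE : TELEF_S.{u})
    (hPKS : PKSF_S.{u}) (hNUM : NUMF_S.{u}) (c : Ctx G) (U K : G → Prop) (δ : ℝ)
    (hU : c.Light 4 U δ) (hδ0 : 0 ≤ δ) (hδ : δ ≤ 1 / c.X ^ 3)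
    (hK : ∀ x y, x⁻¹ * y ∈ c.B → K x → K y) (x0 y0 : G) (hx0 : K x0) (hy0 : ¬ K y0) :
    c.b / c.X ^ 2 ≤ ∑ x, ∑ y, ind (¬ U x ∧ ¬ U y ∧ K x ∧ ¬ K y ∧ x⁻¹ * y ∈ c.C) := by
  obtain ⟨hX1, hX2⟩ := numX hNUM c
  have n8 : 0 < c.b := (hNUM G c).2.2.2.2.2.2.1
  have hUM := TE.H47.UM_DS c.B c.hB.ne
  have hXp : 0 < c.X := by linarith
  -- a crossing pair
  obtain ⟨v, t, ht, hv, hv'⟩ : ∃ v t, t ∈ c.C ∧ K v ∧ ¬ K (v * t) := by
    by_contra hcon
    push Not at hcon
    have key : ∀ h ∈ Subgroup.closure (c.C : Set G), ∀ z, K z → K (z * h) := by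
      intro h hh
      induction hh using Subgroup.closure_induction'' with
      | mem s hs => intro z hz; exact hcon z s (by simpa using hs) hz
      | inv_mem s hs => intro z hz; exact hcon z s⁻¹ (c.hC.inv s (by simpa using hs)) hz
      | one => intro z hz; simpa using hz
      | mul a b ha hb iha ihb =>
        intro z hz
        rw [← mul_assoc]
        exact ihb _ (iha z hz)
    have h1 := key (x0⁻¹ * y0) (by rw [c.hCgen]; trivial) x0 hx0
    rw [mul_inv_cancel_left] at h1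
    exact hy0 h1
  have hvv : v⁻¹ * (v * t) ∈ Lt c.B c.C true := by
    rw [inv_mul_cancel_left]
    unfold Lt
    simp only [if_true]
    exact Finset.mem_union_right _ ht
  have hcc1 : ∀ j x y, c.cc true j x y ≤ 1 := by
    intro j x y
    obtain ⟨-, -, -, -, -, -, -, -, -, -, k8', -⟩ := hKER G c true
    have k8 := fun p => (k8' p).1
    rw [← (k8 j).row x]
    exact Finset.single_le_sum (fun y _ => (k8 j).nn x y) (Finset.mem_univ y)
  obtain ⟨R, hR0, hR1, hR2⟩ := flow hKER hCPL hTELE hPKS hNUM c true v (v * t) hvv U δ hU hδ0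
    (fun x y => ind (¬ U x ∧ ¬ U y ∧ K x ∧ ¬ K y ∧ x⁻¹ * y ∈ c.C)) (fun x y => ind_nonneg _) 1
    (by norm_num) (fun j x y => mul_le_mul_of_nonneg_right (hcc1 j x y) (ind_nonneg _))
    (fun x => ind (K x)) (by
      intro x y hxy
      have h0 := ind_nonneg (¬ U x ∧ ¬ U y ∧ K x ∧ ¬ K y ∧ x⁻¹ * y ∈ c.C)
      by_cases h1 : K x
      · by_cases h2 : K y
        · rw [ind_of h1, ind_of h2]
          linarith [ind_nonneg (U x), ind_nonneg (U y)]
        · rw [ind_of h1, ind_not h2]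
          by_cases h3 : U x
          · rw [ind_of h3]
            linarith [ind_nonneg (U y)]
          by_cases h4 : U y
          · rw [ind_of h4]
            linarith [ind_nonneg (U x)]
          have hC : x⁻¹ * y ∈ c.C := by
            unfold Lt at hxy
            simp only [if_true, Finset.mem_union] at hxy
            rcases hxy with h | h
            · exact absurd (hK x y h h1) h2
            · exact h
          rw [ind_of (show ¬ U x ∧ ¬ U y ∧ K x ∧ ¬ K y ∧ x⁻¹ * y ∈ c.C from ⟨h3, h4, h1, h2, hC⟩)]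
          linarith [ind_nonneg (U x), ind_nonneg (U y)]
      · rw [ind_not h1]
        linarith [ind_nonneg (U x), ind_nonneg (U y), ind_nonneg (K y)])
  set N := ∑ x, ∑ y, ind (¬ U x ∧ ¬ U y ∧ K x ∧ ¬ K y ∧ x⁻¹ * y ∈ c.C) with hN
  have hnK : ∀ z', UM c.B (v * t) z' ≠ 0 → ¬ K z' := by
    intro z' hz' hKz
    refine hv' (hK z' (v * t) ?_ hKz)
    have := c.hB.inv _ (TE.H19.UM_ne hz')
    simpa using this
  have hlow : 1 ≤ ∑ z, ∑ z', UM c.B v z * UM c.B (v * t) z' * R z z' := by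
    have h1 : (1 : ℝ) = ∑ z, ∑ z', UM c.B v z * UM c.B (v * t) z' := by
      rw [← Finset.sum_mul_sum, hUM.row, hUM.row, mul_one]
    rw [h1]
    refine Finset.sum_le_sum fun z _ => Finset.sum_le_sum fun z' _ => ?_
    by_cases h2 : UM c.B v z = 0
    · rw [h2]; simp
    by_cases h3 : UM c.B (v * t) z' = 0
    · rw [h3]; simp
    have h4 := hR1 z z' h2 h3
    rw [ind_of (hK v z (TE.H19.UM_ne h2) hv), ind_not (hnK z' h3)] at h4
    have h5 : 0 ≤ UM c.B v z * UM c.B (v * t) z' := mul_nonneg (hUM.nn _ _) (hUM.nn _ _)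
    nlinarith
  have hNn : 0 ≤ N := Finset.sum_nonneg fun x _ => Finset.sum_nonneg fun y _ => ind_nonneg _
  have h9 : (1 : ℝ) ≤ (6 * c.k + 3) * (2 * c.X * (1 / c.b * N + 2 * δ)) := le_trans hlow hR2
  have hδX : c.X * δ ≤ 1 / c.X ^ 2 := by
    calc c.X * δ ≤ c.X * (1 / c.X ^ 3) := mul_le_mul_of_nonneg_left hδ hXp.le
      _ = 1 / c.X ^ 2 := by field_simp
  have hk0 : (0 : ℝ) < 6 * c.k + 3 := by positivity
  have h10 : (6 * c.k + 3) * (2 * c.X * (2 * δ)) ≤ 1 / 16 := by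
    have : (6 * (c.k : ℝ) + 3) * (c.X * δ) ≤ c.X / 32 * (1 / c.X ^ 2) :=
      mul_le_mul (by linarith) hδX (by positivity) (by positivity)
    have h11 : c.X / 32 * (1 / c.X ^ 2) = 1 / (32 * c.X) := by field_simp
    have h12 : 1 / (32 * c.X) ≤ 1 / 64 := by
      rw [div_le_div_iff₀ (by positivity) (by norm_num)]
      linarith
    nlinarith
  have h13 : (1 : ℝ) / 16 ≤ (6 * c.k + 3) * (2 * c.X * (1 / c.b * N)) := by nlinarith
  have h14 : (6 * c.k + 3) * (2 * c.X * (1 / c.b * N)) ≤ c.X ^ 2 / 16 * (N / c.b) := by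
    have : (1 / c.b * N) = N / c.b := by field_simp
    rw [this]
    have h15 : 0 ≤ N / c.b := by positivity
    have h18 : (6 * (c.k : ℝ) + 3) * (2 * c.X) ≤ c.X ^ 2 / 16 := by nlinarith
    calc (6 * (c.k : ℝ) + 3) * (2 * c.X * (N / c.b)) =
        (6 * (c.k : ℝ) + 3) * (2 * c.X) * (N / c.b) := by ring
      _ ≤ _ := mul_le_mul_of_nonneg_right h18 h15
  have h16 : 1 ≤ c.X ^ 2 * (N / c.b) := by linarith
  have h17 : c.b ≤ c.X ^ 2 * N := by
    have : c.X ^ 2 * (N / c.b) = c.X ^ 2 * N / c.b := by ring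
    rw [this, le_div_iff₀ (by positivity)] at h16
    linarith
  rw [div_le_iff₀ (by positivity)]
  nlinarith

end

end Pool.Agent.Lib.MP_688fd0_co.TF.H70
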