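import Pool.Agent.Lib.MP_688fd0_co.TF.Iface78
import Pool.Agent.Lib.MP_688fd0_co.TF.H70.IsoGen

/-!
# Theorem F, modules ISO1F and ISO2F: (7.1), (7.2)
-/

set_option autoImplicit false
set_option linter.all false

namespace Pool.Agent.Lib.MP_688fd0_co.TF.H70

open Pool.Agent.Lib.MP_688fd0_co.TE
open Pool.Agent.Lib.MP_688fd0_co.TF

universe u v w

section

variable {G : Type u} [Group G] [Fintype G] [DecidableEq G]

theorem light_or (hPKS : PKSF_S.{u}) (c : Ctx G) {N : ℕ} (U V : G → Prop) (δ δ' : ℝ)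
    (hU : c.Light N U δ)
    (hV : c.Light N V δ') : c.Light N (fun x => U x ∨ V x) (δ + δ') := by
  intro M hM y
  have hM0 : ∀ x, 0 ≤ M y x := fun x => ((hPKS G c).2.2.2.2.1 _ _ hM.1).nn y x
  refine le_trans ?_ (add_le_add (hU M hM y) (hV M hM y))
  rw [← Finset.sum_add_distrib]
  refine Finset.sum_le_sum fun x _ => ?_
  rw [← add_mul]
  refine mul_le_mul_of_nonneg_right ?_ (hM0 x)
  by_cases h1 : U x
  · rw [ind_of h1]
    linarith [ind_le_one (U x ∨ V x), ind_nonneg (V x)]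
  · by_cases h2 : V x
    · rw [ind_of h2]
      linarith [ind_le_one (U x ∨ V x), ind_nonneg (U x)]
    · rw [ind_not (show ¬ (U x ∨ V x) from fun h => h.elim h1 h2)]
      linarith [ind_nonneg (U x), ind_nonneg (V x)]

theorem light_mono (hPKS : PKSF_S.{u}) (c : Ctx G) {N N' : ℕ} (hN : N ≤ N') (U : G → Prop)
    (δ δ' : ℝ) (hδ : δ ≤ δ') (hU : c.Light N' U δ) : c.Light N U δ' := by
  intro M hM y
  exact le_trans (hU M ((hPKS G c).2.2.2.2.2.2.2.1 _ _ _ hN hM) y) hδ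

theorem pow_inv_le (hNUM : NUMF_S.{u}) (c : Ctx G) {a b : ℕ} (h : a ≤ b) : 1 / c.X ^ b ≤ 1 / c.X ^ a := by
  have hX := (numX hNUM c).2
  exact one_div_le_one_div_of_le (by positivity) (pow_le_pow_right₀ (by linarith) h)

/-- The gadgets are light. -/
theorem lightW (hPKS : PKSF_S.{u}) (hNUM : NUMF_S.{u}) (c : Ctx G) {N : ℕ} (g : Gad c N) (hN : 4 ≤ N) :
    c.Light 4 g.W (2 / c.X ^ 390) := by
  have h0 := light_mono hPKS c hN _ _ _ le_rfl (g.light false)
  have h1 := light_mono hPKS c hN _ _ _ le_rfl (g.light true)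
  have h2 := light_or hPKS c _ _ _ _ h0 h1
  have hd : c.del false + c.del true ≤ 2 / c.X ^ 390 := by
    unfold Ctx.del
    simp only [if_true, Bool.false_eq_true, if_false]
    have := pow_inv_le hNUM c (show 390 ≤ 2990 by norm_num)
    have e : 2 / c.X ^ 390 = 1 / c.X ^ 390 + 1 / c.X ^ 390 := by ring
    rw [e]
    linarith
  intro M hM y
  refine le_trans ?_ (le_trans (h2 M hM y) hd)
  have hM0 : ∀ x, 0 ≤ M y x := fun x => ((hPKS G c).2.2.2.2.1 _ _ hM.1).nn y x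
  refine Finset.sum_le_sum fun x _ => mul_le_mul_of_nonneg_right (ind_mono ?_) (hM0 x)
  rintro ⟨τ, e, he, hx⟩
  cases τ
  · exact Or.inl ⟨e, he, hx⟩
  · exact Or.inr ⟨e, he, hx⟩

theorem lightUW (hPKS : PKSF_S.{u}) (hNUM : NUMF_S.{u}) (c : Ctx G) {N : ℕ} (g : Gad c N) (hN : 4 ≤ N)
    (Un : G → Prop) (hUn : c.Light 4 Un (1 / c.X ^ 50)) :
    c.Light 4 (fun v => Un v ∨ g.W v) (1 / c.X ^ 3) := by
  have h1 := light_or hPKS c _ _ _ _ hUn (lightW hPKS hNUM c g hN)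
  refine light_mono hPKS c le_rfl _ _ _ ?_ h1
  have hX := (numX hNUM c).2
  have h2 := pow_inv_le hNUM c (show 4 ≤ 50 by norm_num)
  have h3 := pow_inv_le hNUM c (show 4 ≤ 390 by norm_num)
  have e : 2 / c.X ^ 390 = 1 / c.X ^ 390 + 1 / c.X ^ 390 := by ring
  rw [e]
  have h4 : 3 * (1 / c.X ^ 4) ≤ 1 / c.X ^ 3 := by
    have : 1 / c.X ^ 3 = c.X * (1 / c.X ^ 4) := by field_simp
    rw [this]
    have h5 : 0 ≤ 1 / c.X ^ 4 := by positivity
    nlinarith
  linarith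

theorem card_ind (P : G × G → Prop) [DecidablePred P] :
    ((Finset.univ.filter P).card : ℝ) = ∑ x, ∑ y, ind (P (x, y)) := by
  rw [← Fintype.sum_prod_type (f := fun p : G × G => ind (P p)), Finset.card_filter]
  push_cast
  refine Finset.sum_congr rfl fun p _ => ?_
  by_cases h : P p
  · simp [h, ind]
  · simp [h, ind]

end

/-- Module ISO1F. -/
theorem iso1f (hKER : KERF_S.{u}) (hCPL : CPLF_S.{u}) (hTELE : TELEF_S.{u})
    (hPKS : PKSF_S.{u}) (hNUM : NUMF_S.{u}) : ISO1F_S.{u} := by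
  classical
  intro G _ _ _ c N g m Un v0 S S1 hN hm hUn hd hmem hS hS1
  have hX := (numX hNUM c).2
  obtain ⟨n1, n2, -, n4, -, n6, n8, n9, -⟩ := hNUM G c
  have hU := lightUW hPKS hNUM c g (by omega) Un hUn
  have hm0 : (0 : ℝ) < m := lt_of_lt_of_le (by positivity) hm.1
  have hcard : ∀ T : Finset G, ∑ v, ind (v ∈ T) = (T.card : ℝ) := by
    intro T
    exact TE.H47.sum_ind_mem T
  have h := iso1' hKER hCPL hTELE hPKS hNUM c v0 (fun v => Un v ∨ g.W v) (fun v => v ∈ S) (fun v => v ∈ S1)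
    (1 / c.X ^ 3) (m / 16) hU (by positivity) le_rfl
    (by
      intro v hv
      by_cases h1 : Un v
      · exact Or.inl (Or.inl h1)
      by_cases h2 : g.W v
      · exact Or.inl (Or.inr h2)
      have h3 := (hmem v).2 ⟨hv, h2, h1⟩
      rcases Finset.mem_union.1 h3 with h4 | h4
      · exact Or.inr (Or.inl h4)
      · exact Or.inr (Or.inr h4))
    (fun v hv => ((hmem v).1 (Finset.mem_union_left _ hv)).1)
    (fun v hv => ((hmem v).1 (Finset.mem_union_right _ hv)).1)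
    (fun v hv hv' => Finset.disjoint_left.1 hd hv hv')
    (by positivity)
    (by
      have h1 : (m : ℝ) / 16 ≤ m := by linarith
      refine le_trans h1 (le_trans hm.2 (le_trans ?_ n9))
      have h2 : (2 : ℝ) * c.X ^ 1000 ≤ c.X ^ 1001 := by
        rw [pow_succ (n := 1000)]
        have : 0 < c.X ^ 1000 := by positivity
        nlinarith
      exact le_trans h2 (pow_le_pow_right₀ (by linarith) (by norm_num)))
    (by
      rw [hcard]
      have : (m : ℝ) ≤ 16 * S.card := by exact_mod_cast hS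
      linarith)
    (by
      rw [hcard]
      have : (m : ℝ) ≤ 16 * S1.card := by exact_mod_cast hS1
      linarith)
  have hc : (((S ×ˢ S1).filter (fun p : G × G => p.1⁻¹ * p.2 ∈ c.B)).card : ℝ) =
      ∑ x, ∑ y, ind (x ∈ S ∧ y ∈ S1 ∧ x⁻¹ * y ∈ c.B) := by
    rw [← card_ind (fun p : G × G => p.1 ∈ S ∧ p.2 ∈ S1 ∧ p.1⁻¹ * p.2 ∈ c.B)]
    congr 2
    ext p
    simp only [Finset.mem_filter, Finset.mem_product, Finset.mem_univ, true_and, and_assoc]
  rw [hc]
  refine le_trans ?_ h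
  rw [div_le_div_iff₀ (by positivity) (by positivity)]
  have e : c.b * (↑m / 16) * c.X ^ 3 = c.b * ↑m * c.X ^ 2 * (c.X / 16) := by ring
  rw [e]
  have h2 : 0 ≤ c.b * ↑m * c.X ^ 2 := by positivity
  nlinarith

/-- Module ISO2F. -/
theorem iso2f (hKER : KERF_S.{u}) (hCPL : CPLF_S.{u}) (hTELE : TELEF_S.{u})
    (hPKS : PKSF_S.{u}) (hNUM : NUMF_S.{u}) : ISO2F_S.{u} := by
  classical
  intro G _ _ _ c N g Un K hN hUn hK hx hy
  obtain ⟨x0, hx0, hKx0⟩ := hx
  obtain ⟨y0, hy0, hKy0⟩ := hy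
  have hU := lightUW hPKS hNUM c g (by omega) Un hUn
  have hX := (numX hNUM c).2
  have h := iso2' hKER hCPL hTELE hPKS hNUM c (fun v => Un v ∨ g.W v)
    (fun x => ∃ y, ¬ g.W y ∧ y⁻¹ * x ∈ c.H ∧ K y) (1 / c.X ^ 3) hU (by positivity) le_rfl
    (by
      rintro x y hxy ⟨z, hz, hzx, hKz⟩
      refine ⟨z, hz, ?_, hKz⟩
      have : z⁻¹ * y = (z⁻¹ * x) * (x⁻¹ * y) := by group
      rw [this]
      exact Subgroup.mul_mem _ hzx (Subgroup.subset_closure hxy))
    x0 y0 ⟨x0, hx0, by simpa using c.H.one_mem, hKx0⟩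
    (by
      rintro ⟨z, hz, hzy, hKz⟩
      exact hKy0 (hK z y0 hz hy0 hzy hKz))
  refine le_trans h ?_
  rw [card_ind]
  refine Finset.sum_le_sum fun x _ => Finset.sum_le_sum fun y _ => ind_mono ?_
  rintro ⟨h1, h2, ⟨z, hz, hzx, hKz⟩, h4, h5⟩
  have hWx : ¬ g.W x := fun h => h1 (Or.inr h)
  have hWy : ¬ g.W y := fun h => h2 (Or.inr h)
  refine ⟨⟨hWx, fun h => h1 (Or.inl h), hK z x hz hWx hzx hKz⟩,
    ⟨hWy, fun h => h2 (Or.inl h), fun hKy => h4 ⟨y, hWy, ?_, hKy⟩⟩, h5⟩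
  rw [inv_mul_cancel]
  exact c.H.one_mem

end Pool.Agent.Lib.MP_688fd0_co.TF.H70
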