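import Pool.Agent.Lib.MP_688fd0_co.TE.H19.Tele
import Pool.Agent.Lib.MP_688fd0_co.TE.H47.Ker
import Pool.Agent.Lib.MP_688fd0_co.TF.Iface4
import Pool.Agent.Lib.MP_688fd0_co.TF.H20.Adjf

/-!
# Theorem F, (7.1) and (7.2): isoperimetry from coupled link walks
-/

set_option autoImplicit false
set_option linter.all false

namespace Pool.Agent.Lib.MP_688fd0_co.TF.H70

open Pool.Agent.Lib.MP_688fd0_co.TE
open Pool.Agent.Lib.MP_688fd0_co.TF

universe u v w

section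

variable {G : Type u} [Group G] [Fintype G] [DecidableEq G]

theorem UM_symm' {S : Finset G} (hS : Sy S) (x y : G) : UM S x y = UM S y x := by
  unfold UM
  have h : (x⁻¹ * y ∈ S) ↔ (y⁻¹ * x ∈ S) := by
    constructor
    · intro h
      have := hS.inv _ h
      simpa using this
    · intro h
      have := hS.inv _ h
      simpa using this
  by_cases h1 : x⁻¹ * y ∈ S
  · rw [ind_of h1, ind_of (h.1 h1)]
  · rw [ind_not h1, ind_not (fun h2 => h1 (h.2 h2))]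

theorem K_succ (c : Ctx G) (τ : Bool) (j : ℕ) :
    c.K τ 0 (j + 1) = c.K τ 0 j * c.cc τ (j + 1) := by
  unfold Ctx.K
  show Kn (c.cc τ) 0 j * c.cc τ (0 + j + 1) = _
  rw [Nat.zero_add]

theorem K_first (c : Ctx G) (τ : Bool) (j r : ℕ) :
    c.K τ j (1 + r) = c.cc τ (j + 1) * c.K τ (j + 1) r := by
  unfold Ctx.K
  rw [TE.H47.Kn_add, TE.H47.Kn_one]

theorem kp_step (c : Ctx G) (τ : Bool) (a i : ℕ) (z p q : G) :
    c.kp τ a i (i + 1) (p⁻¹ * q) z p =
      c.K τ 0 i z p * c.K τ (i + 1) (6 * a - (i + 1)) q z / c.qq τ a := by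
  unfold Ctx.kp
  rw [mul_inv_cancel_left]

theorem kp_sum_right (c : Ctx G) (τ : Bool) (a i : ℕ) (hi : i + 1 ≤ 6 * a) (z p : G) :
    ∑ q, c.kp τ a i (i + 1) (p⁻¹ * q) z p * c.cc τ (i + 1) p q = c.kp τ a i i 1 z p := by
  have e : 6 * a - i = 1 + (6 * a - (i + 1)) := by omega
  have h : c.kp τ a i i 1 z p = c.K τ 0 i z p *
      (∑ q, c.cc τ (i + 1) p q * c.K τ (i + 1) (6 * a - (i + 1)) q z) / c.qq τ a := by
    unfold Ctx.kp
    rw [mul_one, e, K_first, Matrix.mul_apply]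
  rw [h, Finset.mul_sum, Finset.sum_div]
  refine Finset.sum_congr rfl fun q _ => ?_
  rw [kp_step]
  ring

theorem kp_sum_left (c : Ctx G) (τ : Bool) (a i : ℕ) (z q : G) :
    ∑ p, c.kp τ a i (i + 1) (p⁻¹ * q) z p * c.cc τ (i + 1) p q =
      c.kp τ a (i + 1) (i + 1) 1 z q := by
  have h : c.kp τ a (i + 1) (i + 1) 1 z q = (∑ p, c.K τ 0 i z p * c.cc τ (i + 1) p q) *
      c.K τ (i + 1) (6 * a - (i + 1)) q z / c.qq τ a := by
    unfold Ctx.kp
    rw [mul_one, K_succ, Matrix.mul_apply]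
  rw [h, Finset.sum_mul, Finset.sum_div]
  refine Finset.sum_congr rfl fun p _ => ?_
  rw [kp_step]
  ring

/-- The halved closed walk kernels after a step of `UM`. -/
theorem TKhk (hPKS : PKSF_S.{u}) (c : Ctx G) (τ par : Bool) (j : ℕ) (hj : j ≤ 6 * c.ha par) :
    c.TK 4 (UM c.B * c.hk τ par j j 1) := by
  obtain ⟨P1, P2, P3, P4, P5, P6, P7, P8, P9, -⟩ := hPKS G c
  have h1 : c.PK 1 (c.hk τ par j j 1) :=
    P4 _ (Or.inr (Or.inr ⟨τ, par, j, j, 1, le_rfl, by omega, hj, Or.inl rfl⟩))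
  exact P8 (1 + 1) 4 _ (by norm_num) (P7 _ _ _ _ P9 h1).1

/-- Sum over one step of the closed walks. -/
theorem half (hPKS : PKSF_S.{u}) (c : Ctx G) (τ par : Bool) (i : ℕ)
    (hi : i + 1 ≤ 6 * c.ha par) (v : G) (U : G → Prop) (δ : ℝ) (hU : c.Light 4 U δ)
    (g : G → G → ℝ) (hg : ∀ x y, 0 ≤ g x y) (θ : ℝ) (hθ0 : 0 ≤ θ)
    (hθ : ∀ x y, c.cc τ (i + 1) x y * g x y ≤ θ * g x y) (hb : 0 < c.b)
    (hcc : ∀ x y, 0 ≤ c.cc τ (i + 1) x y) :
    ∑ z, UM c.B v z * ∑ p, ∑ q, c.kp τ (c.ha par) i (i + 1) (p⁻¹ * q) z p *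
      c.cc τ (i + 1) p q * (g p q + ind (U p) + ind (U q)) ≤
      2 * (θ / c.b * ∑ p, ∑ q, g p q + 2 * δ) := by
  obtain ⟨P1, P2, P3, P4, P5, P6, P7, P8, P9, -⟩ := hPKS G c
  have hUM := TE.H47.UM_DS c.B c.hB.ne
  have hkS : ∀ s, SS (c.hk τ par i (i + 1) s) := fun s =>
    P5 1 _ (P4 _ (Or.inr (Or.inr ⟨τ, par, i, i + 1, s, by omega, by omega, hi, Or.inl rfl⟩)))
  have hkn : ∀ s z p, 0 ≤ c.kp τ (c.ha par) i (i + 1) s z p := by
    intro s z p
    have := (hkS s).nn z p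
    unfold Ctx.hk at this
    linarith
  have hkc : ∀ s p, ∑ z, c.kp τ (c.ha par) i (i + 1) s z p ≤ 2 := by
    intro s p
    have := (hkS s).col p
    unfold Ctx.hk at this
    rw [← Finset.mul_sum] at this
    linarith
  have e : ∀ z, ∑ p, ∑ q, c.kp τ (c.ha par) i (i + 1) (p⁻¹ * q) z p *
      c.cc τ (i + 1) p q * (g p q + ind (U p) + ind (U q)) =
      (∑ p, ∑ q, c.kp τ (c.ha par) i (i + 1) (p⁻¹ * q) z p * (c.cc τ (i + 1) p q * g p q)) +
      (∑ p, ind (U p) * c.kp τ (c.ha par) i i 1 z p) +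
      ∑ q, ind (U q) * c.kp τ (c.ha par) (i + 1) (i + 1) 1 z q := by
    intro z
    have e1 : ∑ p, ind (U p) * c.kp τ (c.ha par) i i 1 z p =
        ∑ p, ∑ q, c.kp τ (c.ha par) i (i + 1) (p⁻¹ * q) z p * c.cc τ (i + 1) p q * ind (U p) := by
      refine Finset.sum_congr rfl fun p _ => ?_
      rw [← kp_sum_right c τ (c.ha par) i hi, Finset.mul_sum]
      exact Finset.sum_congr rfl fun q _ => by ring
    have e2 : ∑ q, ind (U q) * c.kp τ (c.ha par) (i + 1) (i + 1) 1 z q =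
        ∑ p, ∑ q, c.kp τ (c.ha par) i (i + 1) (p⁻¹ * q) z p * c.cc τ (i + 1) p q * ind (U q) := by
      rw [Finset.sum_comm]
      refine Finset.sum_congr rfl fun q _ => ?_
      rw [← kp_sum_left c τ (c.ha par) i, Finset.mul_sum]
      exact Finset.sum_congr rfl fun p _ => by ring
    rw [e1, e2, ← Finset.sum_add_distrib, ← Finset.sum_add_distrib]
    refine Finset.sum_congr rfl fun p _ => ?_
    rw [← Finset.sum_add_distrib, ← Finset.sum_add_distrib]
    refine Finset.sum_congr rfl fun q _ => ?_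
    ring
  have hA : ∑ z, UM c.B v z * ∑ p, ∑ q, c.kp τ (c.ha par) i (i + 1) (p⁻¹ * q) z p *
      (c.cc τ (i + 1) p q * g p q) ≤ 2 * (θ / c.b * ∑ p, ∑ q, g p q) := by
    have e3 : ∑ z, UM c.B v z * ∑ p, ∑ q, c.kp τ (c.ha par) i (i + 1) (p⁻¹ * q) z p *
        (c.cc τ (i + 1) p q * g p q) = ∑ p, ∑ q, (∑ z, UM c.B v z *
          c.kp τ (c.ha par) i (i + 1) (p⁻¹ * q) z p) * (c.cc τ (i + 1) p q * g p q) := by
      simp only [Finset.mul_sum]
      rw [Finset.sum_comm]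
      refine Finset.sum_congr rfl fun p _ => ?_
      rw [Finset.sum_comm]
      refine Finset.sum_congr rfl fun q _ => ?_
      rw [Finset.sum_mul]
      exact Finset.sum_congr rfl fun z _ => by ring
    rw [e3, Finset.mul_sum, Finset.mul_sum]
    refine Finset.sum_le_sum fun p _ => ?_
    rw [Finset.mul_sum, Finset.mul_sum]
    refine Finset.sum_le_sum fun q _ => ?_
    have h1 : ∑ z, UM c.B v z * c.kp τ (c.ha par) i (i + 1) (p⁻¹ * q) z p ≤ 2 / c.b := by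
      calc ∑ z, UM c.B v z * c.kp τ (c.ha par) i (i + 1) (p⁻¹ * q) z p ≤
          ∑ z, 1 / c.b * c.kp τ (c.ha par) i (i + 1) (p⁻¹ * q) z p :=
            Finset.sum_le_sum fun z _ => mul_le_mul_of_nonneg_right
              (TE.H47.UM_le c.B v z) (hkn _ _ _)
        _ = 1 / c.b * ∑ z, c.kp τ (c.ha par) i (i + 1) (p⁻¹ * q) z p := by rw [Finset.mul_sum]
        _ ≤ 1 / c.b * 2 := mul_le_mul_of_nonneg_left (hkc _ _) (by positivity)
        _ = 2 / c.b := by ring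
    have h2 : 0 ≤ c.cc τ (i + 1) p q * g p q := mul_nonneg (hcc _ _) (hg _ _)
    calc (∑ z, UM c.B v z * c.kp τ (c.ha par) i (i + 1) (p⁻¹ * q) z p) *
          (c.cc τ (i + 1) p q * g p q) ≤ 2 / c.b * (c.cc τ (i + 1) p q * g p q) :=
          mul_le_mul_of_nonneg_right h1 h2
      _ ≤ 2 / c.b * (θ * g p q) := mul_le_mul_of_nonneg_left (hθ p q) (by positivity)
      _ = 2 * (θ / c.b * g p q) := by ring
  have hB : ∀ j, j ≤ 6 * c.ha par → ∑ z, UM c.B v z *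
      ∑ p, ind (U p) * c.kp τ (c.ha par) j j 1 z p ≤ 2 * δ := by
    intro j hj
    have h1 := hU _ (TKhk hPKS c τ par j hj) v
    have e4 : ∑ z, UM c.B v z * ∑ p, ind (U p) * c.kp τ (c.ha par) j j 1 z p =
        2 * ∑ x, ind (U x) * (UM c.B * c.hk τ par j j 1) v x := by
      simp only [Matrix.mul_apply, Finset.mul_sum]
      rw [Finset.sum_comm]
      refine Finset.sum_congr rfl fun p _ => ?_
      refine Finset.sum_congr rfl fun z _ => ?_
      unfold Ctx.hk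
      ring
    rw [e4]
    linarith
  have e5 : ∑ z, UM c.B v z * ∑ p, ∑ q, c.kp τ (c.ha par) i (i + 1) (p⁻¹ * q) z p *
      c.cc τ (i + 1) p q * (g p q + ind (U p) + ind (U q)) =
      (∑ z, UM c.B v z * ∑ p, ∑ q, c.kp τ (c.ha par) i (i + 1) (p⁻¹ * q) z p *
        (c.cc τ (i + 1) p q * g p q)) +
      (∑ z, UM c.B v z * ∑ p, ind (U p) * c.kp τ (c.ha par) i i 1 z p) +
      ∑ z, UM c.B v z * ∑ q, ind (U q) * c.kp τ (c.ha par) (i + 1) (i + 1) 1 z q := by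
    rw [← Finset.sum_add_distrib, ← Finset.sum_add_distrib]
    refine Finset.sum_congr rfl fun z _ => ?_
    rw [e z]
    ring
  rw [e5]
  have b1 := hB i (by omega)
  have b2 := hB (i + 1) hi
  linarith

theorem adm3 (c : Ctx G) (τ : Bool) {v v' z z' : G} (hvv : v⁻¹ * v' ∈ Lt c.B c.C τ)
    (hz : UM c.B v z ≠ 0) (hz' : UM c.B v' z' ≠ 0) : c.adm τ true 100 z z' := by
  have h1 := TE.H19.UM_ne hz
  have h2 := TE.H19.UM_ne hz'
  unfold Ctx.adm
  rw [if_pos rfl]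
  refine ⟨3, by decide, by norm_num, [(v⁻¹ * z)⁻¹, v⁻¹ * v', v'⁻¹ * z'], rfl, ?_, ?_⟩
  · intro s hs
    simp only [List.mem_cons, List.not_mem_nil, or_false] at hs
    rcases hs with rfl | rfl | rfl
    · exact TE.H19.B_sub_Lt (c.hB.inv _ h1)
    · exact hvv
    · exact TE.H19.B_sub_Lt h2
  · simp only [List.prod_cons, List.prod_nil]
    group

theorem cc_tr (hKER : KERF_S.{u}) (c : Ctx G) (τ : Bool) (i j : ℕ) (h : i + j + 1 = 6 * c.k + 3)
    (x y : G) : c.cc τ (j + 1) x y = c.cc τ (i + 1) y x := by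
  obtain ⟨-, -, -, k4, -, -, -, -, -, -, -, k12⟩ := hKER G c τ
  have h1 := k4 j i 1 (by omega)
  rw [k12, k12] at h1
  have h2 := congrFun (congrFun h1 y) x
  rw [Matrix.transpose_apply] at h2
  exact h2

/-- Sum over the pairs `(z, z')` around the step `j` of a link walk. -/
theorem step_bound (hKER : KERF_S.{u}) (hCPL : CPLF_S.{u}) (hPKS : PKSF_S.{u}) (hNUM : NUMF_S.{u})
    (c : Ctx G) (τ : Bool) (v v' : G) (hvv : v⁻¹ * v' ∈ Lt c.B c.C τ)
    (U : G → Prop) (δ : ℝ) (hU : c.Light 4 U δ) (hδ0 : 0 ≤ δ) (g : G → G → ℝ)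
    (hg : ∀ x y, 0 ≤ g x y)
    (θ : ℝ) (hθ0 : 0 ≤ θ) (hθ : ∀ j x y, c.cc τ j x y * g x y ≤ θ * g x y)
    (j : ℕ) (hj : j < c.len true) :
    ∑ z, ∑ z', UM c.B v z * UM c.B v' z' *
      ∑ v1, ∑ v2, c.U τ true z z' j v1 v2 * (g v1 v2 + ind (U v1) + ind (U v2)) ≤
      2 * c.X * (θ / c.b * ∑ v1, ∑ v2, g v1 v2 + 2 * δ) := by
  obtain ⟨k1, k2, -, k4, -, -, -, -, -, -, k11, -⟩ := hKER G c τ
  have hX : (10 ^ 6 : ℝ) ≤ c.X := (hNUM G c).1
  have hb : 0 < c.b := (hNUM G c).2.2.2.2.2.2.1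
  have hUM := TE.H47.UM_DS c.B c.hB.ne
  have hlen : c.len true = 6 * c.k + 3 := by simp [Ctx.len]
  have hmid : c.mid true = 3 * c.k + 3 := by simp [Ctx.mid]
  have hha1 : c.ha true = c.k + 1 := by simp [Ctx.ha]
  have hha0 : c.ha false = c.k := by simp [Ctx.ha]
  have hG0 : ∀ v1 v2, 0 ≤ g v1 v2 + ind (U v1) + ind (U v2) := fun v1 v2 =>
    add_nonneg (add_nonneg (hg _ _) (ind_nonneg _)) (ind_nonneg _)
  have hcc : ∀ p x y, 0 ≤ c.cc τ p x y := fun p x y => (k11 p).1.nn x y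
  have hR0 : 0 ≤ θ / c.b * ∑ v1, ∑ v2, g v1 v2 + 2 * δ := by
    have : 0 ≤ ∑ v1, ∑ v2, g v1 v2 := Finset.sum_nonneg fun _ _ => Finset.sum_nonneg fun _ _ =>
      hg _ _
    positivity
  have hfin : 5 / 4 * (2 * (θ / c.b * ∑ v1, ∑ v2, g v1 v2 + 2 * δ)) ≤
      2 * c.X * (θ / c.b * ∑ v1, ∑ v2, g v1 v2 + 2 * δ) := by
    have : 5 / 4 * (2 * (θ / c.b * ∑ v1, ∑ v2, g v1 v2 + 2 * δ)) =
      2 * (5 / 4) * (θ / c.b * ∑ v1, ∑ v2, g v1 v2 + 2 * δ) := by ring
    rw [this]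
    refine mul_le_mul_of_nonneg_right ?_ hR0
    linarith
  rcases lt_or_ge j (c.mid true) with hjk | hjk
  · -- near the start
    have hz : ∀ z z', UM c.B v z * UM c.B v' z' *
        ∑ v1, ∑ v2, c.U τ true z z' j v1 v2 * (g v1 v2 + ind (U v1) + ind (U v2)) ≤
        UM c.B v z * UM c.B v' z' * (5 / 4 * ∑ v1, ∑ v2,
          c.kp τ (c.ha true) j (j + 1) (v1⁻¹ * v2) z v1 *
          c.cc τ (j + 1) v1 v2 * (g v1 v2 + ind (U v1) + ind (U v2))) := by
      intro z z'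
      by_cases h1 : UM c.B v z = 0
      · rw [h1]; simp
      by_cases h2 : UM c.B v' z' = 0
      · rw [h2]; simp
      obtain ⟨-, -, -, -, u3, -⟩ := hCPL G c τ true z z' (adm3 c τ hvv h1 h2)
      refine mul_le_mul_of_nonneg_left ?_ (mul_nonneg (hUM.nn _ _) (hUM.nn _ _))
      rw [Finset.mul_sum]
      refine Finset.sum_le_sum fun v1 _ => ?_
      rw [Finset.mul_sum]
      refine Finset.sum_le_sum fun v2 _ => ?_
      have := mul_le_mul_of_nonneg_right (u3 j v1 v2 hjk) (hG0 v1 v2)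
      linarith
    refine le_trans (Finset.sum_le_sum fun z _ => Finset.sum_le_sum fun z' _ => hz z z') ?_
    have e : ∑ z, ∑ z', UM c.B v z * UM c.B v' z' * (5 / 4 * ∑ v1, ∑ v2,
          c.kp τ (c.ha true) j (j + 1) (v1⁻¹ * v2) z v1 *
          c.cc τ (j + 1) v1 v2 * (g v1 v2 + ind (U v1) + ind (U v2))) =
        5 / 4 * ∑ z, UM c.B v z * ∑ v1, ∑ v2,
          c.kp τ (c.ha true) j (j + 1) (v1⁻¹ * v2) z v1 *
          c.cc τ (j + 1) v1 v2 * (g v1 v2 + ind (U v1) + ind (U v2)) := by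
      rw [Finset.mul_sum]
      refine Finset.sum_congr rfl fun z _ => ?_
      rw [← Finset.sum_mul, ← Finset.mul_sum, hUM.row, mul_one]
      ring
    rw [e]
    refine le_trans (mul_le_mul_of_nonneg_left (half hPKS c τ true j (by rw [hha1]; omega) v U δ hU
      g hg θ hθ0 (hθ _) hb (hcc _)) (by norm_num)) hfin
  · -- near the end
    obtain ⟨i, hi⟩ : ∃ i, i = c.len true - 1 - j := ⟨_, rfl⟩
    have hi1 : c.len true - j = i + 1 := by omega
    have hi2 : i + j + 1 = 6 * c.k + 3 := by omega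
    have hz : ∀ z z', UM c.B v z * UM c.B v' z' *
        ∑ v1, ∑ v2, c.U τ true z z' j v1 v2 * (g v1 v2 + ind (U v1) + ind (U v2)) ≤
        UM c.B v z * UM c.B v' z' * (5 / 4 * ∑ v2, ∑ v1,
          c.kp τ (c.ha false) i (i + 1) (v2⁻¹ * v1) z' v2 *
          c.cc τ (i + 1) v2 v1 * (g v1 v2 + ind (U v2) + ind (U v1))) := by
      intro z z'
      by_cases h1 : UM c.B v z = 0
      · rw [h1]; simp
      by_cases h2 : UM c.B v' z' = 0
      · rw [h2]; simp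
      obtain ⟨-, -, -, -, -, u4, -⟩ := hCPL G c τ true z z' (adm3 c τ hvv h1 h2)
      refine mul_le_mul_of_nonneg_left ?_ (mul_nonneg (hUM.nn _ _) (hUM.nn _ _))
      rw [Finset.sum_comm, Finset.mul_sum]
      refine Finset.sum_le_sum fun v2 _ => ?_
      rw [Finset.mul_sum]
      refine Finset.sum_le_sum fun v1 _ => ?_
      have h5 := u4 j v1 v2 hjk hj
      rw [← hi, hi1, cc_tr hKER c τ i j hi2] at h5
      have := mul_le_mul_of_nonneg_right h5 (hG0 v1 v2)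
      rw [hha0]
      linarith
    refine le_trans (Finset.sum_le_sum fun z _ => Finset.sum_le_sum fun z' _ => hz z z') ?_
    have e : ∑ z, ∑ z', UM c.B v z * UM c.B v' z' * (5 / 4 * ∑ v2, ∑ v1,
          c.kp τ (c.ha false) i (i + 1) (v2⁻¹ * v1) z' v2 *
          c.cc τ (i + 1) v2 v1 * (g v1 v2 + ind (U v2) + ind (U v1))) =
        5 / 4 * ∑ z', UM c.B v' z' * ∑ v2, ∑ v1,
          c.kp τ (c.ha false) i (i + 1) (v2⁻¹ * v1) z' v2 *
          c.cc τ (i + 1) v2 v1 * (g v1 v2 + ind (U v2) + ind (U v1)) := by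
      rw [Finset.sum_comm, Finset.mul_sum]
      refine Finset.sum_congr rfl fun z' _ => ?_
      rw [← Finset.sum_mul, ← Finset.sum_mul, hUM.row, one_mul]
      ring
    rw [e]
    have h6 := half hPKS c τ false i (by rw [hha0]; omega) v' U δ hU (fun x y => g y x)
      (fun x y => hg y x) θ hθ0 (fun x y => by
        have := hθ (j + 1) y x
        rw [cc_tr hKER c τ i j hi2] at this
        exact this) hb (hcc _)
    have e7 : ∑ p, ∑ q, g q p = ∑ v1, ∑ v2, g v1 v2 := Finset.sum_comm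
    simp only [e7] at h6
    exact le_trans (mul_le_mul_of_nonneg_left h6 (by norm_num)) hfin

/-- The flow lemma: a function which drops from `z` to `z'` drops along the steps of the link
walks. -/
theorem flow (hKER : KERF_S.{u}) (hCPL : CPLF_S.{u}) (hTELE : TELEF_S.{u}) (hPKS : PKSF_S.{u})
    (hNUM : NUMF_S.{u}) (c : Ctx G) (τ : Bool) (v v' : G)
    (hvv : v⁻¹ * v' ∈ Lt c.B c.C τ)
    (U : G → Prop) (δ : ℝ) (hU : c.Light 4 U δ) (hδ0 : 0 ≤ δ) (g : G → G → ℝ)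
    (hg : ∀ x y, 0 ≤ g x y)
    (θ : ℝ) (hθ0 : 0 ≤ θ) (hθ : ∀ j x y, c.cc τ j x y * g x y ≤ θ * g x y)
    (f : G → ℝ) (hf : ∀ x y, x⁻¹ * y ∈ Lt c.B c.C τ → f x - f y ≤ g x y + ind (U x) + ind (U y)) :
    ∃ R : G → G → ℝ, (∀ z z', 0 ≤ UM c.B v z * UM c.B v' z' * R z z') ∧
      (∀ z z', UM c.B v z ≠ 0 → UM c.B v' z' ≠ 0 → f z - f z' ≤ R z z') ∧
      ∑ z, ∑ z', UM c.B v z * UM c.B v' z' * R z z' ≤
        (6 * c.k + 3) * (2 * c.X * (θ / c.b * ∑ v1, ∑ v2, g v1 v2 + 2 * δ)) := by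
  have hlen : c.len true = 6 * c.k + 3 := by simp [Ctx.len]
  have hUM := TE.H47.UM_DS c.B c.hB.ne
  have hG0 : ∀ v1 v2, 0 ≤ g v1 v2 + ind (U v1) + ind (U v2) := fun v1 v2 =>
    add_nonneg (add_nonneg (hg _ _) (ind_nonneg _)) (ind_nonneg _)
  refine ⟨fun z z' => ∑ j ∈ Finset.range (c.len true), ∑ v1, ∑ v2,
    c.U τ true z z' j v1 v2 * (g v1 v2 + ind (U v1) + ind (U v2)), ?_, ?_, ?_⟩
  · intro z z'
    by_cases h1 : UM c.B v z = 0
    · rw [h1]; simp
    by_cases h2 : UM c.B v' z' = 0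
    · rw [h2]; simp
    obtain ⟨-, -, u1, -⟩ := hCPL G c τ true z z' (adm3 c τ hvv h1 h2)
    refine mul_nonneg (mul_nonneg (hUM.nn _ _) (hUM.nn _ _)) ?_
    exact Finset.sum_nonneg fun j hj => Finset.sum_nonneg fun v1 _ => Finset.sum_nonneg fun v2 _ =>
      mul_nonneg (u1 j v1 v2 (Finset.mem_range.1 hj)) (hG0 _ _)
  · intro z z' h1 h2
    have hadm := adm3 c τ hvv h1 h2
    obtain ⟨-, -, u1, -⟩ := hCPL G c τ true z z' hadm
    obtain ⟨t1, -, t3, -⟩ := hTELE G c τ true z z' hadm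
    have ht := t1 (fun _ => f)
    rw [ht]
    refine Finset.sum_le_sum fun j hj => Finset.sum_le_sum fun v1 _ => Finset.sum_le_sum fun v2 _ => ?_
    have hu := u1 j v1 v2 (Finset.mem_range.1 hj)
    by_cases h0 : c.U τ true z z' j v1 v2 = 0
    · rw [h0]; simp
    · exact mul_le_mul_of_nonneg_left (hf _ _ (TF.H20.cc_ne (t3 j v1 v2 (Finset.mem_range.1 hj) h0)))
        hu
  · have e : ∀ z z', UM c.B v z * UM c.B v' z' * ∑ j ∈ Finset.range (c.len true), ∑ v1, ∑ v2,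
        c.U τ true z z' j v1 v2 * (g v1 v2 + ind (U v1) + ind (U v2)) =
        ∑ j ∈ Finset.range (c.len true), UM c.B v z * UM c.B v' z' * ∑ v1, ∑ v2,
        c.U τ true z z' j v1 v2 * (g v1 v2 + ind (U v1) + ind (U v2)) := fun z z' => by
      rw [Finset.mul_sum]
    simp only [e]
    have e2 : ∑ z, ∑ z', ∑ j ∈ Finset.range (c.len true), UM c.B v z * UM c.B v' z' * ∑ v1, ∑ v2,
        c.U τ true z z' j v1 v2 * (g v1 v2 + ind (U v1) + ind (U v2)) =
        ∑ j ∈ Finset.range (c.len true), ∑ z, ∑ z', UM c.B v z * UM c.B v' z' * ∑ v1, ∑ v2,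
        c.U τ true z z' j v1 v2 * (g v1 v2 + ind (U v1) + ind (U v2)) := by
      conv_rhs => rw [Finset.sum_comm]
      refine Finset.sum_congr rfl fun z _ => ?_
      conv_rhs => rw [Finset.sum_comm]
    rw [e2]
    refine le_trans (Finset.sum_le_sum fun j hj => step_bound hKER hCPL hPKS hNUM c τ v v' hvv U δ
      hU hδ0 g hg θ hθ0 hθ j (Finset.mem_range.1 hj)) ?_
    rw [Finset.sum_const, Finset.card_range, nsmul_eq_mul, hlen]
    push_cast
    exact le_rfl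

/-- The left coset of the group generated by `B`. -/
def cell (c : Ctx G) (x0 y : G) : Prop := x0⁻¹ * y ∈ Subgroup.closure (c.B : Set G)

theorem cell_step (c : Ctx G) (x0 : G) {x y : G} (h : cell c x0 x) (hs : x⁻¹ * y ∈ c.B) :
    cell c x0 y := by
  unfold cell at *
  have : x0⁻¹ * y = (x0⁻¹ * x) * (x⁻¹ * y) := by group
  rw [this]
  exact Subgroup.mul_mem _ h (Subgroup.subset_closure hs)

/-- A function on a cell which takes large and small values does so at two adjacent places. -/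
theorem cell_conn (c : Ctx G) (x0 : G) (P : G → Prop) (x y : G) (hx : cell c x0 x)
    (hy : cell c x0 y) (hP : P x) (hPy : ¬ P y) :
    ∃ v v', cell c x0 v ∧ cell c x0 v' ∧ v⁻¹ * v' ∈ c.B ∧ P v ∧ ¬ P v' := by
  by_contra hcon
  push Not at hcon
  have key : ∀ h ∈ Subgroup.closure (c.B : Set G), ∀ z, cell c x0 z → P z → P (z * h) := by
    intro h hh
    induction hh using Subgroup.closure_induction'' with
    | mem s hs =>
      intro z hz hPz
      refine hcon z (z * s) hz (cell_step c x0 hz (by simpa using hs)) (by simpa using hs) hPz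
    | inv_mem s hs =>
      intro z hz hPz
      have hs' : s⁻¹ ∈ c.B := c.hB.inv s hs
      refine hcon z (z * s⁻¹) hz (cell_step c x0 hz (by simpa using hs')) (by simpa using hs') hPz
    | one => intro z hz hPz; simpa using hPz
    | mul a b ha hb iha ihb =>
      intro z hz hPz
      rw [← mul_assoc]
      refine ihb (z * a) ?_ (iha z hz hPz)
      unfold cell at *
      rw [← mul_assoc]
      exact Subgroup.mul_mem _ hz ha
  have h1 := key (x⁻¹ * y) (by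
    have : x⁻¹ * y = (x0⁻¹ * x)⁻¹ * (x0⁻¹ * y) := by group
    rw [this]
    exact Subgroup.mul_mem _ (Subgroup.inv_mem _ hx) hy) x hx hP
  rw [mul_inv_cancel_left] at h1
  exact hPy h1

theorem numX (hNUM : NUMF_S.{u}) (c : Ctx G) :
    (32 : ℝ) * (6 * c.k + 3) ≤ c.X ∧ (10 : ℝ) ^ 6 ≤ c.X := by
  obtain ⟨n1, n2, -, n4, -⟩ := hNUM G c
  refine ⟨?_, n1⟩
  have hk : (100 : ℝ) ≤ c.k := by exact_mod_cast n4
  have h1 : (32 : ℝ) * (6 * c.k + 3) ≤ 10 ^ 6 * c.k := by linarith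
  have h2 : (10 ^ 6 * c.k : ℝ) ≤ (10 ^ 6 * c.k : ℝ) ^ 200 :=
    le_self_pow₀ (by linarith) (by norm_num)
  linarith

end

end Pool.Agent.Lib.MP_688fd0_co.TF.H70
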